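import Pool.Agent.T2H16.SA.Main

/-! Inscribed squares in Jordan curves made of locally monotone arcs and of completely arbitrary arcs
which are confined to a region over their chord. -/

set_option autoImplicit false

namespace Pool.Agent.Results.MP_5a3ebe_gt.ConfinedArcs

/-- The angle between the (nonzero) vectors `z` and `w` is less than 45 degrees. -/
def Narrow (z w : ℂ) : Prop :=
  |(z * (starRingEnd ℂ) w).im| < (z * (starRingEnd ℂ) w).re

/-- The parameter `s` is a wide corner of the curve: two points of the curve shortly after `s` are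
seen from `c s` under an angle of less than 45 degrees, also two points shortly before `s`, but a
point shortly before `s` and a point shortly after `s` are seen under an obtuse angle. (There is no
condition on chords that do not start at `c s`; the two sides need not have tangents.) -/
def WideCorner (c : ℝ → ℂ) (s : ℝ) : Prop := ∃ ρ > 0,
  (∀ x y, s < x → x < s + ρ → s < y → y < s + ρ → Narrow (c x - c s) (c y - c s)) ∧
  (∀ x y, s - ρ < x → x < s → s - ρ < y → y < s → Narrow (c x - c s) (c y - c s)) ∧
  (∀ x y, s - ρ < x → x < s → s < y → y < s + ρ →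
    ((c x - c s) * (starRingEnd ℂ) (c y - c s)).re < 0)

/-- The coordinate of the point `c s` for which the arc over `[a, b]` goes from `0` to `1`. -/
noncomputable def coord (c : ℝ → ℂ) (a b s : ℝ) : ℂ := (c s - c a) / (c b - c a)

/-- The arc of `c` over `[a, b]` is confined over its chord. In the coordinate in which it goes from
`0` to `1`: it lies in the strip `0 ≤ Re z ≤ 1`, and for some `h ≥ 0` one has `|Im z| ≤ Re z` where
`Re z < 2 h` and `|Im z| ≤ 1 - Re z` where `Re z > 1 - 2 h`, and either `Im z ≥ -h` on the arc or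
`Im z ≤ h` on the arc. For `h = 0` these are the two half strips over the chord, for `h = 1 / 2` it is
the square which has the chord as a diagonal. There is no other condition on the arc. -/
def Confined (c : ℝ → ℂ) (a b : ℝ) : Prop := ∃ h : ℝ, 0 ≤ h ∧
  (∀ s ∈ Set.Icc a b, 0 ≤ (coord c a b s).re ∧ (coord c a b s).re ≤ 1 ∧
    ((coord c a b s).re < 2 * h → |(coord c a b s).im| ≤ (coord c a b s).re) ∧
    (1 - 2 * h < (coord c a b s).re → |(coord c a b s).im| ≤ 1 - (coord c a b s).re)) ∧
  ((∀ s ∈ Set.Icc a b, -h ≤ (coord c a b s).im) ∨ (∀ s ∈ Set.Icc a b, (coord c a b s).im ≤ h))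

/-- Near the parameter `s` all chords of the curve lie in one open quarter plane: for a suitable `w`
the product of `w` with `c y - c x` has `|Im| < Re` for all `x < y` close to `s`. -/
def Tame (c : ℝ → ℂ) (s : ℝ) : Prop := ∃ ρ > 0, ∃ w : ℂ, ∀ x y : ℝ, |x - s| < ρ → |y - s| < ρ →
  x < y → |(w * (c y - c x)).im| < (w * (c y - c x)).re

/-- The curve is locally monotone (in the sense of Stromquist) at the parameter `s`: near `s` all
chords of the curve lie in one open half plane. -/
def LocMono (c : ℝ → ℂ) (s : ℝ) : Prop := ∃ ρ > 0, ∃ w : ℂ, ∀ x y : ℝ, |x - s| < ρ → |y - s| < ρ →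
  x < y → 0 < (w * (c y - c x)).re

/-- Let `c` be a Jordan curve (continuous, of period `1`, injective on `[0, 1)`), cut at the
parameters `t 0 < t 1 < ... < t n = t 0 + 1`, `n ≥ 2`. Suppose that each of the `n` arcs is of one of
the following two kinds:
(1) its ends are wide corners and it is confined over its chord (and otherwise arbitrary);
(2) its ends are tame and it is locally monotone at all its points.
Then `c` contains the four vertices of a square. -/
theorem result (c : ℝ → ℂ) (hc : Continuous c) (hper : ∀ s, c (s + 1) = c s)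
    (hinj : Set.InjOn c (Set.Ico 0 1)) (n : ℕ) (hn : 2 ≤ n) (t : ℕ → ℝ)
    (ht : ∀ j < n, t j < t (j + 1)) (ht1 : t n = t 0 + 1)
    (H : ∀ j < n,
      (WideCorner c (t j) ∧ WideCorner c (t (j + 1)) ∧ Confined c (t j) (t (j + 1))) ∨
      (Tame c (t j) ∧ Tame c (t (j + 1)) ∧ ∀ s ∈ Set.Icc (t j) (t (j + 1)), LocMono c s)) :
    ∃ z w : ℂ, w ≠ 0 ∧ z ∈ Set.range c ∧ z + w ∈ Set.range c ∧
      z + w + Complex.I * w ∈ Set.range c ∧ z + Complex.I * w ∈ Set.range c := by
  by_contra hno
  have L : Pool.Agent.H763R2.An.Loop c := ⟨hc, hper⟩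
  have J : Pool.Agent.H763R2.An.Inj c := by
    intro x y hxy hy he
    have e1 : c (Int.fract x) = c x := by
      have := L.per_int (Int.fract x) ⌊x⌋
      rw [Int.fract_add_floor] at this
      exact this.symm
    have e2 : c (Int.fract y) = c y := by
      have := L.per_int (Int.fract y) ⌊y⌋
      rw [Int.fract_add_floor] at this
      exact this.symm
    have e3 := hinj ⟨Int.fract_nonneg x, Int.fract_lt_one x⟩
      ⟨Int.fract_nonneg y, Int.fract_lt_one y⟩ (by rw [e1, e2, he])
    obtain ⟨m, hm⟩ := Int.fract_eq_fract.1 e3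
    have h1 : (m : ℝ) < 0 := by linarith
    have h2 : (-1 : ℝ) < m := by linarith
    have h3 : m < 0 := by exact_mod_cast h1
    have h4 : -1 < m := by exact_mod_cast h2
    omega
  refine Pool.Agent.T2H16.main_false L J hno hn ht ht1 (fun j hj => ?_)
  rcases H j hj with ⟨w1, w2, hf⟩ | h
  · refine Or.inr ⟨w1, w2, ?_⟩
    have e : Pool.Agent.T2H16.tr (c (t (j + 1)) - c (t j))⁻¹ (c (t j)) c =
        coord c (t j) (t (j + 1)) := by
      funext s
      unfold Pool.Agent.T2H16.tr coord
      rw [div_eq_inv_mul]
    rw [e]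
    exact Pool.Agent.T2H16.Shape.cf hf
  · exact Or.inl h

end Pool.Agent.Results.MP_5a3ebe_gt.ConfinedArcs
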