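import Pool.Agent.T2H16.SB.Fin

/-! Inscribed squares in a bulge between two arcs which are graphs of arbitrary continuous functions
(no Lipschitz condition), contained in an arbitrary Jordan curve. -/

set_option autoImplicit false

namespace Pool.Agent.Results.MP_5a3ebe_gt.GraphBulge

open Complex

/-- The graph of `f` over `[0, 1]` in the coordinates `x, y` with `z = P + (x + i y) w₀`. -/
def graphArc (P w₀ : ℂ) (f : ℝ → ℝ) : Set ℂ :=
  (fun x : ℝ => P + ((x : ℂ) + (f x : ℂ) * I) * w₀) '' Set.Icc 0 1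

/-- Let `f` and `g` be arbitrary continuous functions on `[0, 1]` whose graphs lie in the rhombus with
the slopes `k` and `-k`, `0 ≤ k < 1`, fattened by `ε ≥ 0`: `|f x|` and `|g x|` are at most
`ε + k min (x, 1 - x)`. (So at both ends there may be a neck of width `2 ε` between the two graphs.)
Let `κ ≥ 18 ε² / (1 - k)²` and suppose that there is a bulge: for some `0 ≤ a ≤ b ≤ 1` and all real
`v` the integral of `f` over `[a, b]` minus the integral of `g` over `[a + v, b + v]` is greater than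
`κ + ((b - a)² - v²) / 2` (outside `[0, 1]` the function `g` is continued by its values `g 0` and
`g 1`). For instance, for `κ < h² / 2` this is so if `b - a = h`, `f ≥ m + h` on `[a, b]` and `g ≤ m` on
`[a - d, b + d] ⊆ [0, 1]`, where `d² ≥ 2 h (max g - m)`.

Let `C` be any set in the plane, for instance any Jordan curve, that contains the graphs of `f` and
of `g` in some coordinate system `z = P + (x + i y) w₀`. Then `C` contains the four vertices of a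
square with two adjacent vertices on the graph of `g` and the two others on the graph of `f`, and
the side `s` of the square satisfies `κ |w₀|² < (2 ε + k) |w₀| s + s² / 2`. Nothing is assumed about
the rest of `C`. -/
theorem result (C : Set ℂ) (P w₀ : ℂ) (hw₀ : w₀ ≠ 0) (f g : ℝ → ℝ)
    (hf : ContinuousOn f (Set.Icc 0 1)) (hg : ContinuousOn g (Set.Icc 0 1))
    (hfC : graphArc P w₀ f ⊆ C) (hgC : graphArc P w₀ g ⊆ C)
    (k ε κ : ℝ) (hk : 0 ≤ k) (hk1 : k < 1) (hε : 0 ≤ ε) (hκ : 18 * ε ^ 2 / (1 - k) ^ 2 ≤ κ)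
    (hrhomb : ∀ x ∈ Set.Icc (0:ℝ) 1,
      |f x| ≤ ε + k * min x (1 - x) ∧ |g x| ≤ ε + k * min x (1 - x))
    (a b : ℝ) (ha : 0 ≤ a) (hab : a ≤ b) (hb : b ≤ 1)
    (hbulge : ∀ v : ℝ, κ + ((b - a) ^ 2 - v ^ 2) / 2 <
      (∫ x in a..b, f x) - ∫ x in (a + v)..(b + v), g (max 0 (min 1 x))) :
    ∃ z w : ℂ, w ≠ 0 ∧ z ∈ C ∧ z + w ∈ C ∧ z + w + I * w ∈ C ∧ z + I * w ∈ C ∧
      z ∈ graphArc P w₀ g ∧ z + w ∈ graphArc P w₀ g ∧
      z + w + I * w ∈ graphArc P w₀ f ∧ z + I * w ∈ graphArc P w₀ f ∧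
      κ * ‖w₀‖ ^ 2 < (2 * ε + k) * ‖w₀‖ * ‖w‖ + ‖w‖ ^ 2 / 2 := by
  obtain ⟨x, u, v, i1, i2, i3, i4, ⟨e1, e2, e3, e4⟩, hE⟩ :=
    Pool.Agent.T2H16.SB.bulge hf hg hk hk1 hε hκ hrhomb ha hab hb hbulge
  have κ0 : 0 ≤ κ := le_trans (by
    have : 0 ≤ (1 - k) ^ 2 := sq_nonneg _
    positivity) hκ
  have h1 : P + (((x + v : ℝ) : ℂ) + (g (x + v) : ℂ) * I) * w₀ ∈ graphArc P w₀ g :=
    ⟨x + v, i3, rfl⟩
  have h2 : P + (((x + v : ℝ) : ℂ) + (g (x + v) : ℂ) * I) * w₀ + ((u : ℂ) + v * I) * w₀ ∈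
      graphArc P w₀ g := by
    refine ⟨x + u + v, i4, ?_⟩
    have : g (x + u + v) = g (x + v) + v := by linarith
    simp only [this]; push_cast; ring
  have h3 : P + (((x + v : ℝ) : ℂ) + (g (x + v) : ℂ) * I) * w₀ + ((u : ℂ) + v * I) * w₀ +
      I * (((u : ℂ) + v * I) * w₀) ∈ graphArc P w₀ f := by
    refine ⟨x + u, i2, ?_⟩
    have : f (x + u) = g (x + v) + v + u := by linarith
    simp only [this]; push_cast
    linear_combination -((v : ℂ) * w₀) * I_mul_I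
  have h4 : P + (((x + v : ℝ) : ℂ) + (g (x + v) : ℂ) * I) * w₀ + I * (((u : ℂ) + v * I) * w₀) ∈
      graphArc P w₀ f := by
    refine ⟨x, i1, ?_⟩
    have : f x = g (x + v) + u := by linarith
    simp only [this]; push_cast
    linear_combination -((v : ℂ) * w₀) * I_mul_I
  have nw : ‖((u : ℂ) + v * I)‖ ^ 2 = u ^ 2 + v ^ 2 := by
    rw [Complex.sq_norm, Complex.normSq_apply]; simp; ring
  have hside : κ * ‖w₀‖ ^ 2 < (2 * ε + k) * ‖w₀‖ * ‖((u : ℂ) + v * I) * w₀‖ +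
      ‖((u : ℂ) + v * I) * w₀‖ ^ 2 / 2 := by
    have hn : 0 < ‖w₀‖ := norm_pos_iff.2 hw₀
    have hu : |u| ≤ ‖((u : ℂ) + v * I)‖ := by
      have := abs_re_le_norm ((u : ℂ) + v * I)
      simpa using this
    rw [norm_mul, mul_pow, nw]
    have h5 : (2 * ε + k) * |u| ≤ (2 * ε + k) * ‖((u : ℂ) + v * I)‖ :=
      mul_le_mul_of_nonneg_left hu (by linarith)
    have h6 : κ < (2 * ε + k) * ‖((u : ℂ) + v * I)‖ + (u ^ 2 + v ^ 2) / 2 := by
      nlinarith [sq_nonneg u]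
    have h7 := mul_lt_mul_of_pos_right h6 (pow_pos hn 2)
    calc κ * ‖w₀‖ ^ 2 < ((2 * ε + k) * ‖((u : ℂ) + v * I)‖ + (u ^ 2 + v ^ 2) / 2) * ‖w₀‖ ^ 2 := h7
      _ = _ := by ring
  refine ⟨P + (((x + v : ℝ) : ℂ) + (g (x + v) : ℂ) * I) * w₀, ((u : ℂ) + v * I) * w₀, ?_, hgC h1,
    hgC h2, hfC h3, hfC h4, h1, h2, h3, h4, hside⟩
  intro h0
  rw [h0, norm_zero] at hside
  nlinarith [mul_nonneg κ0 (sq_nonneg ‖w₀‖)]

end Pool.Agent.Results.MP_5a3ebe_gt.GraphBulge
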