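import Pool.Agent.T2H33.Peg.Grp

/-! Inscribed squares in linear images of arbitrary Jordan curves: one-parameter groups of linear maps
with a real eigenvalue. -/

open Set

namespace Pool.Agent.Results.MP_5a3ebe_gt.LinearGroups

/-- `C` contains the four vertices of a square. -/
def HasSquare (C : Set ℂ) : Prop := ∃ z w : ℂ, w ≠ 0 ∧ z ∈ C ∧ z + w ∈ C ∧
  z + w + Complex.I * w ∈ C ∧ z + Complex.I * w ∈ C

/-- Let `C` be any Jordan curve and let `X` be a linear map of the plane which has a real eigenvalue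
and is not a multiple of the identity. Then for some real `s` the image of `C` under the linear map
`exp (s X)` contains the vertices of a square. -/
theorem result (γ : Circle → ℂ) (hγ : Continuous γ) (hinj : Function.Injective γ)
    (X : ℂ →L[ℝ] ℂ) (hX : ∃ v : ℂ, ∃ c : ℝ, v ≠ 0 ∧ X v = c • v)
    (hX' : ∀ c : ℝ, X ≠ c • ContinuousLinearMap.id ℝ ℂ) :
    ∃ s : ℝ, HasSquare (⇑(NormedSpace.exp (s • X) : ℂ →L[ℝ] ℂ) '' range γ) :=
  Pool.Agent.T2H33.Peg.group γ hγ hinj X hX hX'

end Pool.Agent.Results.MP_5a3ebe_gt.LinearGroups
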