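import Pool.Agent.T2H16.SC.Theta

/-! Inscribed squares in theta curves: of the three Jordan curves formed by three arbitrary arcs with
common ends at least one has an inscribed square. -/

set_option autoImplicit false

namespace Pool.Agent.Results.MP_5a3ebe_gt.ThetaCurves

/-- The angle between the (nonzero) vectors `z` and `w` is less than 45 degrees. -/
def Narrow (z w : ℂ) : Prop :=
  |(z * (starRingEnd ℂ) w).im| < (z * (starRingEnd ℂ) w).re

/-- The angle between the (nonzero) vectors `z` and `w` is obtuse. -/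
def Obtuse (z w : ℂ) : Prop := (z * (starRingEnd ℂ) w).re < 0

/-- Let `α 0`, `α 1`, `α 2` be three arcs (continuous and injective on `[0, 1]`) from `P` to `Q` which
have no other common points, i.e. a theta curve. Suppose that near `P` each arc is narrow, seen from
`P` (any two of its points near `P` are seen from `P` at an angle of less than 45 degrees), and that
points of different arcs near `P` are seen from `P` at an obtuse angle (for instance, the arcs have
tangents at `P` that form angles of 120 degrees), and the same at `Q`. Nothing else is assumed about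
the arcs. Then at least one of the three Jordan curves that consist of two of the arcs contains the
four vertices of a square. -/
theorem result (α : Fin 3 → ℝ → ℂ) (P Q : ℂ) (hcont : ∀ i, ContinuousOn (α i) (Set.Icc 0 1))
    (hinj : ∀ i, Set.InjOn (α i) (Set.Icc 0 1)) (h0 : ∀ i, α i 0 = P) (h1 : ∀ i, α i 1 = Q)
    (hdisj : ∀ i j, i ≠ j → ∀ s ∈ Set.Ioo (0:ℝ) 1, ∀ t ∈ Set.Ioo (0:ℝ) 1, α i s ≠ α j t)
    (hP : ∃ ρ > 0, ∀ i, ∀ s t : ℝ, 0 < s → s < ρ → 0 < t → t < ρ →
      Narrow (α i s - P) (α i t - P) ∧ ∀ j, j ≠ i → Obtuse (α i s - P) (α j t - P))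
    (hQ : ∃ ρ > 0, ∀ i, ∀ s t : ℝ, 1 - ρ < s → s < 1 → 1 - ρ < t → t < 1 →
      Narrow (α i s - Q) (α i t - Q) ∧ ∀ j, j ≠ i → Obtuse (α i s - Q) (α j t - Q)) :
    ∃ i j, i ≠ j ∧ ∃ z w : ℂ, w ≠ 0 ∧
      z ∈ α i '' Set.Icc 0 1 ∪ α j '' Set.Icc 0 1 ∧
      z + w ∈ α i '' Set.Icc 0 1 ∪ α j '' Set.Icc 0 1 ∧
      z + w + Complex.I * w ∈ α i '' Set.Icc 0 1 ∪ α j '' Set.Icc 0 1 ∧
      z + Complex.I * w ∈ α i '' Set.Icc 0 1 ∪ α j '' Set.Icc 0 1 := by
  obtain ⟨i, j, hij, h⟩ := Pool.Agent.T2H16.Arcs3.main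
    (⟨hcont, hinj, h0, h1, hdisj, hP, hQ⟩ : Pool.Agent.T2H16.Arcs3 α P Q)
  exact ⟨i, j, hij, not_not.1 h⟩

end Pool.Agent.Results.MP_5a3ebe_gt.ThetaCurves
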